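import Mathlib

/-!
# An infinite-dimensional Noetherian residually nilpotent Lie algebra

Over every field `k` of characteristic zero, the positive part `W_+ = t² k[t] d/dt` of the Witt
algebra (basis `e_i = t^(i+1) d/dt`, `i ≥ 1`, `[e_i, e_j] = (j - i) e_(i+j)`) is infinite-dimensional
and residually nilpotent, and satisfies the maximal condition on subalgebras.

Idea.  The set `D` of degrees of the nonzero elements of a subalgebra is closed under sums of
distinct elements, because in characteristic zero the leading terms of two elements of distinct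
degrees do not cancel in the bracket.  If `a ∈ D`, then `D \ {a}` is closed under adding `a`, so `D`
is determined by `a` and finitely many minimal elements in the residue classes modulo `a`, and
ascending chains of such sets stabilise.  Two subalgebras `M ≤ M'` with the same set of degrees are
equal, by descending induction on the degree.
-/

set_option autoImplicit false

namespace Pool.Agent.Results.MP_d0ec72_al.PositiveWitt

open Polynomial

universe u

/-- The bracket of the vector fields `f t² d/dt` and `g t² d/dt` is
`t² (f g' - f' g) t² d/dt`. -/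
noncomputable def br {k : Type u} [Field k] (f g : k[X]) : k[X] :=
  X ^ 2 * (f * derivative g - derivative f * g)

/-- The underlying space of the Lie algebra `W_+ = t² k[t] d/dt`: the polynomial `f` stands for the
vector field `f(t) t² d/dt`, so `X ^ (i - 1)` stands for `e_i = t^(i+1) d/dt`, `i ≥ 1`. -/
def W (k : Type u) [Field k] : Type u := k[X]

namespace W

variable (k : Type u) [Field k]

noncomputable instance : AddCommGroup (W k) := inferInstanceAs (AddCommGroup k[X])

noncomputable instance : Module k (W k) := inferInstanceAs (Module k k[X])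

noncomputable instance : Bracket (W k) (W k) := ⟨fun f g => br (k := k) f g⟩

theorem br_add_left (f g h : k[X]) : br (f + g) h = br f h + br g h := by
  unfold br
  rw [derivative_add]
  ring

theorem br_add_right (f g h : k[X]) : br f (g + h) = br f g + br f h := by
  unfold br
  rw [derivative_add]
  ring

theorem br_self (f : k[X]) : br f f = 0 := by
  unfold br
  ring

theorem br_leibniz (f g h : k[X]) : br f (br g h) = br (br f g) h + br g (br f h) := by
  unfold br
  simp only [derivative_mul, derivative_sub, derivative_X_pow]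
  ring

theorem br_smul (c : k) (f g : k[X]) : br f (c • g) = c • br f g := by
  unfold br
  rw [derivative_smul]
  simp only [smul_eq_C_mul]
  ring

noncomputable instance : LieRing (W k) where
  add_lie f g h := br_add_left k f g h
  lie_add f g h := br_add_right k f g h
  lie_self f := br_self k f
  leibniz_lie f g h := br_leibniz k f g h

noncomputable instance : LieAlgebra k (W k) where
  lie_smul c f g := br_smul k c f g

end W

/-- The Lie algebra `L` satisfies the maximal condition on subalgebras: every ascending chain of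
subalgebras is eventually constant. -/
def MaxSubalgebras (k : Type u) [Field k] (L : Type u) [LieRing L] [LieAlgebra k L] : Prop :=
  ∀ S : ℕ → LieSubalgebra k L, Monotone S → ∃ n, ∀ m, n ≤ m → S m = S n

/-- The Lie algebra `L` is approximable by nilpotent Lie algebras: every nonzero element survives
in some nilpotent quotient. -/
def ResiduallyNilpotent (k : Type u) [Field k] (L : Type u) [LieRing L] [LieAlgebra k L] : Prop :=
  ∀ x : L, x ≠ 0 → ∃ I : LieIdeal k L, x ∉ I ∧ LieRing.IsNilpotent (L ⧸ I)

section Degrees

/-- closed under sums `(a + 1) + (b + 1) - 1` of distinct elements -/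
def Cl (D : Set ℕ) : Prop := ∀ a ∈ D, ∀ b ∈ D, a ≠ b → a + b + 1 ∈ D

theorem Cl_step {D : Set ℕ} (hD : Cl D) {a : ℕ} (ha : a ∈ D) {s : ℕ} (hs : s ∈ D) (hsa : s ≠ a)
    (j : ℕ) : s + j * (a + 1) ∈ D ∧ s + j * (a + 1) ≠ a := by
  induction j with
  | zero => simpa using ⟨hs, hsa⟩
  | succ j ih =>
    constructor
    · have := hD _ ih.1 _ ha ih.2
      rw [show s + (j + 1) * (a + 1) = s + j * (a + 1) + a + 1 by ring]
      exact this
    · have : (j + 1) * (a + 1) = j * (a + 1) + (a + 1) := by ring
      omega

/-- ascending chains of closed sets stabilise -/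
theorem chain_stab (D : ℕ → Set ℕ) (hD : ∀ n, Cl (D n)) (hm : Monotone D) :
    ∃ n, ∀ m, n ≤ m → D m = D n := by
  by_cases hemp : ∀ n, D n = ∅
  · exact ⟨0, fun m _ => by rw [hemp, hemp]⟩
  push Not at hemp
  obtain ⟨n₀, a, ha⟩ := hemp
  have key : ∀ r : ℕ, ∃ N, ∀ n, ∀ s ∈ D n, s ≠ a → s % (a + 1) = r → s ∈ D N := by
    intro r
    by_cases hex : ∃ s, (∃ n, s ∈ D n) ∧ s ≠ a ∧ s % (a + 1) = r
    · classical
      obtain ⟨⟨n₁, hn₁⟩, h2, h3⟩ := Nat.find_spec hex
      set s₀ := Nat.find hex with hs₀
      refine ⟨max n₀ n₁, ?_⟩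
      intro n s hs hsa hsr
      have hle : s₀ ≤ s := Nat.find_min' hex ⟨⟨n, hs⟩, hsa, hsr⟩
      obtain ⟨j, hj⟩ : ∃ j, s = s₀ + j * (a + 1) := by
        have h5 : (a + 1) ∣ s - s₀ := by
          have h6 : s₀ ≡ s [MOD (a + 1)] := by
            unfold Nat.ModEq
            rw [h3, hsr]
          exact (Nat.modEq_iff_dvd' hle).mp h6
        obtain ⟨j, hj⟩ := h5
        exact ⟨j, by rw [mul_comm j, ← hj]; omega⟩
      rw [hj]
      exact (Cl_step (hD _) (hm (le_max_left _ _) ha) (hm (le_max_right _ _) hn₁) h2 j).1
    · push Not at hex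
      exact ⟨0, fun n s hs hsa hsr => absurd hsr (hex s ⟨n, hs⟩ hsa)⟩
  choose N hN using key
  refine ⟨max n₀ ((Finset.range (a + 1)).sup N), ?_⟩
  intro m hmn
  apply Set.Subset.antisymm
  · intro s hs
    by_cases hsa : s = a
    · rw [hsa]
      exact hm (le_max_left _ _) ha
    · have h1 := hN (s % (a + 1)) m s hs hsa rfl
      refine hm ?_ h1
      refine le_trans ?_ (le_max_right _ _)
      exact Finset.le_sup (f := N) (Finset.mem_range.mpr (Nat.mod_lt _ (by omega)))
  · exact hm hmn

end Degrees

section Main

variable {k : Type u} [Field k]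

/-- the bracket raises the order -/
theorem br_dvd_succ {n : ℕ} (f g : k[X]) (h : X ^ n ∣ g) : X ^ (n + 1) ∣ br f g := by
  obtain ⟨q, rfl⟩ := h
  unfold br
  rcases n with _ | n
  · simp only [pow_zero, one_mul, zero_add, pow_one]
    exact Dvd.dvd.mul_right (dvd_pow_self _ (by norm_num)) _
  · rw [derivative_mul, derivative_X_pow]
    refine ⟨f * (C ((n + 1 : ℕ) : k) * q) + X * (f * derivative q) - X * (derivative f * q), ?_⟩
    simp only [Nat.add_sub_cancel]
    ring

theorem br_dvd {n : ℕ} (f g : k[X]) (h : X ^ n ∣ g) : X ^ n ∣ br f g :=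
  (pow_dvd_pow X (Nat.le_succ n)).trans (br_dvd_succ f g h)

/-- the degrees of the nonzero elements -/
def Deg (M : LieSubalgebra k (W k)) : Set ℕ :=
  {d | ∃ f : W k, f ∈ M ∧ f ≠ 0 ∧ natDegree (R := k) f = d}

theorem lie_coeff [CharZero k] (f g : k[X]) (hf : f ≠ 0) (hg : g ≠ 0)
    (hfg : f.natDegree ≠ g.natDegree) :
    (X ^ 2 * (f * derivative g - derivative f * g)).natDegree = f.natDegree + g.natDegree + 1 ∧
      X ^ 2 * (f * derivative g - derivative f * g) ≠ 0 := by
  set a := f.natDegree with ha
  set b := g.natDegree with hb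
  have hle : (X ^ 2 * (f * derivative g - derivative f * g)).natDegree ≤ a + b + 1 := by
    have h1 : (X ^ 2 * (f * derivative g - derivative f * g)) =
        X * (f * (X * derivative g) - (X * derivative f) * g) := by ring
    have h2 : (X * derivative g).natDegree ≤ b := by
      by_cases hb0 : b = 0
      · rw [derivative_of_natDegree_zero (by omega), mul_zero, natDegree_zero]
        omega
      · have h3 := natDegree_derivative_lt (p := g) (by omega)
        refine natDegree_mul_le.trans ?_
        have h4 : (X : k[X]).natDegree ≤ 1 := natDegree_X_le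
        omega
    have h2' : (X * derivative f).natDegree ≤ a := by
      by_cases hb0 : a = 0
      · rw [derivative_of_natDegree_zero (by omega), mul_zero, natDegree_zero]
        omega
      · have h3 := natDegree_derivative_lt (p := f) (by omega)
        refine natDegree_mul_le.trans ?_
        have h4 : (X : k[X]).natDegree ≤ 1 := natDegree_X_le
        omega
    rw [h1]
    refine natDegree_mul_le.trans ?_
    have h4 : (X : k[X]).natDegree ≤ 1 := natDegree_X_le
    have h5 : (f * (X * derivative g) - X * derivative f * g).natDegree ≤ a + b := by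
      refine (natDegree_sub_le _ _).trans ?_
      apply max_le
      · refine natDegree_mul_le.trans ?_
        omega
      · refine natDegree_mul_le.trans ?_
        omega
    omega
  have hcoef : (X ^ 2 * (f * derivative g - derivative f * g)).coeff (a + b + 1) =
      ((b : k) - a) * (f.leadingCoeff * g.leadingCoeff) := by
    have h1 : (X ^ 2 * (f * derivative g - derivative f * g)) =
        (f * (X * derivative g) - (X * derivative f) * g) * X := by ring
    have h2 : ∀ (p : k[X]) (n : ℕ), (X * derivative p).coeff n = n * p.coeff n := by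
      intro p n
      rcases n with _ | n
      · simp
      · rw [coeff_X_mul, coeff_derivative]
        push_cast
        ring
    have hX : ∀ p : k[X], (X * derivative p).natDegree ≤ p.natDegree := by
      intro p
      by_cases hb0 : p.natDegree = 0
      · rw [derivative_of_natDegree_zero hb0, mul_zero, natDegree_zero]
        omega
      · have h3 := natDegree_derivative_lt (p := p) hb0
        refine natDegree_mul_le.trans ?_
        have h4 : (X : k[X]).natDegree ≤ 1 := natDegree_X_le
        omega
    rw [h1, coeff_mul_X, coeff_sub]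
    have h6 : (f * (X * derivative g)).coeff (a + b) = f.coeff a * (X * derivative g).coeff b :=
      coeff_mul_add_eq_of_natDegree_le (by omega) ((hX g).trans (by omega))
    have h7 : ((X * derivative f) * g).coeff (a + b) = (X * derivative f).coeff a * g.coeff b :=
      coeff_mul_add_eq_of_natDegree_le ((hX f).trans (by omega)) (by omega)
    rw [h6, h7, h2, h2]
    simp only [leadingCoeff, ← ha, ← hb]
    ring
  have hne : (X ^ 2 * (f * derivative g - derivative f * g)).coeff (a + b + 1) ≠ 0 := by
    rw [hcoef]
    refine mul_ne_zero ?_ (mul_ne_zero (leadingCoeff_ne_zero.mpr hf) (leadingCoeff_ne_zero.mpr hg))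
    rw [sub_ne_zero]
    intro h
    exact hfg (Nat.cast_injective h).symm
  refine ⟨le_antisymm hle (le_natDegree_of_ne_zero hne), ?_⟩
  intro h0
  rw [h0] at hne
  simp at hne

theorem Deg_closed [CharZero k] (M : LieSubalgebra k (W k)) : Cl (Deg M) := by
  rintro a ⟨f, hf, hf0, rfl⟩ b ⟨g, hg, hg0, rfl⟩ hab
  obtain ⟨h1, h2⟩ := lie_coeff (k := k) f g hf0 hg0 hab
  exact ⟨⁅f, g⁆, M.lie_mem hf hg, h2, h1⟩

/-- cancelling the leading term -/
theorem cancel (f g : k[X]) (hf : f ≠ 0) (hg : g ≠ 0) (h : g.natDegree = f.natDegree) :
    f - (f.leadingCoeff * g.leadingCoeff⁻¹) • g = 0 ∨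
      (f - (f.leadingCoeff * g.leadingCoeff⁻¹) • g).natDegree < f.natDegree := by
  set c : k := f.leadingCoeff * g.leadingCoeff⁻¹ with hc
  have hgl : g.leadingCoeff ≠ 0 := leadingCoeff_ne_zero.mpr hg
  have hfl : f.leadingCoeff ≠ 0 := leadingCoeff_ne_zero.mpr hf
  have hc0 : c ≠ 0 := mul_ne_zero hfl (inv_ne_zero hgl)
  have hle : (f - c • g).natDegree ≤ f.natDegree := by
    refine (natDegree_sub_le _ _).trans (max_le le_rfl ?_)
    exact (natDegree_smul_le _ _).trans h.le
  have hco : (f - c • g).coeff f.natDegree = 0 := by
    rw [coeff_sub, coeff_smul, smul_eq_mul]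
    have h1 : g.coeff f.natDegree = g.leadingCoeff := by rw [← h]; rfl
    have h2 : f.coeff f.natDegree = f.leadingCoeff := rfl
    rw [h1, h2, hc, mul_assoc, inv_mul_cancel₀ hgl, mul_one, sub_self]
  by_cases h0 : f - c • g = 0
  · exact Or.inl h0
  · right
    refine lt_of_le_of_ne hle ?_
    intro he
    rw [← he] at hco
    exact h0 (leadingCoeff_eq_zero.mp hco)

theorem eq_of_Deg {M M' : LieSubalgebra k (W k)} (h : M ≤ M') (hD : Deg M' ⊆ Deg M) : M' = M := by
  apply le_antisymm _ h
  have key : ∀ d : ℕ, ∀ f : W k, f ∈ M' → natDegree (R := k) f < d → f ∈ M := by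
    intro d
    induction d with
    | zero => intro f _ h0; omega
    | succ d ih =>
      intro f hf hfd
      by_cases hf0 : f = 0
      · rw [hf0]; exact M.zero_mem
      obtain ⟨g, hg, hg0, hgd⟩ := hD ⟨f, hf, hf0, rfl⟩
      obtain ⟨c, hc⟩ : ∃ c : k, f - c • g = 0 ∨
          natDegree (R := k) (f - c • g : W k) < natDegree (R := k) f :=
        ⟨_, cancel (k := k) f g hf0 hg0 hgd⟩
      have hmem : f - c • g ∈ M' := M'.sub_mem hf (M'.smul_mem c (h hg))
      have h3 : f = (f - c • g) + c • g := by abel
      rw [h3]
      refine M.add_mem ?_ (M.smul_mem c hg)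
      rcases hc with hc | hc
      · rw [hc]; exact M.zero_mem
      · exact ih _ hmem (by omega)
  intro f hf
  exact key _ f hf (Nat.lt_succ_self _)

theorem noetherian [CharZero k] : MaxSubalgebras k (W k) := by
  intro S hS
  obtain ⟨n, hn⟩ := chain_stab (fun m => Deg (S m)) (fun m => Deg_closed (S m)) (by
    intro a b hab d hd
    obtain ⟨f, hf, h0, h1⟩ := hd
    exact ⟨f, hS hab hf, h0, h1⟩)
  exact ⟨n, fun m hm => eq_of_Deg (hS hm) (hn m hm).subset⟩

/-- the ideal of the multiples of `X ^ n` -/
noncomputable def In (k : Type u) [Field k] (n : ℕ) : LieIdeal k (W k) where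
  carrier := {f | X ^ n ∣ (show k[X] from f)}
  zero_mem' := dvd_zero _
  add_mem' := fun {a b} ha hb => dvd_add (α := k[X]) ha hb
  smul_mem' := fun c f hf => by
    change X ^ n ∣ (c • (show k[X] from f))
    rw [smul_eq_C_mul]
    exact Dvd.dvd.mul_left (α := k[X]) hf _
  lie_mem := by
    intro f g hg
    exact br_dvd f g hg

theorem mem_In {n : ℕ} {f : W k} : f ∈ In k n ↔ X ^ n ∣ (show k[X] from f) := Iff.rfl

theorem lcs_le (n : ℕ) : LieModule.lowerCentralSeries k (W k) (W k) n ≤ In k n := by
  induction n with
  | zero =>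
    intro f _
    rw [mem_In, pow_zero]
    exact one_dvd _
  | succ n ih =>
    rw [LieModule.lowerCentralSeries_succ, LieSubmodule.lieIdeal_oper_eq_span,
      LieSubmodule.lieSpan_le]
    rintro _ ⟨f, g, rfl⟩
    exact br_dvd_succ (k := k) (f : W k) (g : W k) (mem_In.mp (ih g.2))

theorem resid : ResiduallyNilpotent k (W k) := by
  intro f hf
  refine ⟨In k (natDegree (R := k) f + 1), ?_, ?_⟩
  · rw [mem_In]
    intro h
    have h1 := natDegree_le_of_dvd h hf
    rw [natDegree_X_pow] at h1
    change natDegree (R := k) f + 1 ≤ natDegree (R := k) f at h1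
    omega
  · have h1 : LieModule.IsNilpotent (W k) (W k ⧸ In k (natDegree (R := k) f + 1)) :=
      (LieModule.isNilpotent_quotient_iff k (W k) (W k) _).mpr ⟨_, lcs_le _⟩
    rw [LieRing.IsNilpotent, LieModule.isNilpotent_iff k]
    obtain ⟨n, hn⟩ := (LieModule.isNilpotent_iff k (W k) _).mp h1
    refine ⟨n, ?_⟩
    rw [← LieSubmodule.toSubmodule_inj, ← coe_lowerCentralSeries_ideal_quot_eq, hn]
    rfl

end Main

/-- **Positive answer to Q1.**  Over every field `k` of characteristic zero there is an
infinite-dimensional Lie algebra which satisfies the maximal condition on subalgebras and is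
approximable by nilpotent Lie algebras. -/
theorem result (k : Type u) [Field k] [CharZero k] :
    ∃ (L : Type u) (_ : LieRing L) (_ : LieAlgebra k L),
      ¬ FiniteDimensional k L ∧ MaxSubalgebras k L ∧ ResiduallyNilpotent k L :=
  ⟨W k, inferInstance, inferInstance, fun h => Polynomial.not_finite (R := k) h, noetherian, resid⟩

end Pool.Agent.Results.MP_d0ec72_al.PositiveWitt
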